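import Pool.Agent.Helper477.Sph.Mol2

set_option autoImplicit false

/-! # Two almost conjugate groups of order 819 acting freely on the sphere of dimension 17 -/

namespace Pool.Agent.Q138.Iso

open Matrix

/-! ## Realification of complex matrices -/

/-- A complex number as a real `2 × 2` matrix. -/
noncomputable def c2 : ℂ →ₐ[ℝ] Matrix (Fin 2) (Fin 2) ℝ := Algebra.leftMulMatrix Complex.basisOneI

theorem c2_apply (z : ℂ) : c2 z = !![z.re, -z.im; z.im, z.re] := Algebra.leftMulMatrix_complex z

theorem c2_star (z : ℂ) : c2 (star z) = (c2 z)ᵀ := by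
  rw [c2_apply, c2_apply]
  ext i j
  fin_cases i <;> fin_cases j <;> simp

/-- The index set of the complex coordinates. -/
abbrev X : Type := ZMod 3 × ZMod 3

/-- Numbering of the real coordinates. -/
noncomputable def en : X × Fin 2 ≃ Fin 18 := Fintype.equivFinOfCardEq (by decide)

/-- Realification. -/
noncomputable def R : Matrix X X ℂ →+* Matrix (Fin 18) (Fin 18) ℝ :=
  (Matrix.reindexAlgEquiv ℝ ℝ en).toAlgHom.toRingHom.comp
    ((Matrix.compRingEquiv X (Fin 2) ℝ).toRingHom.comp c2.toRingHom.mapMatrix)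

theorem R_apply (C : Matrix X X ℂ) (i j : Fin 18) :
    R C i j = c2 (C (en.symm i).1 (en.symm j).1) (en.symm i).2 (en.symm j).2 := rfl

theorem R_star (C : Matrix X X ℂ) : R Cᴴ = (R C)ᵀ := by
  ext i j
  rw [Matrix.transpose_apply, R_apply, R_apply, Matrix.conjTranspose_apply, c2_star]
  rfl

/-! ## The matrices -/

/-- The weights. -/
def h (x : X) : ZMod 91 := 79 ^ x.1.val * 29 ^ x.2.val

theorem h_add (x y : X) : h (x + y) = h x * h y := by revert x y; decide

theorem h_zero : h 0 = 1 := by decide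

theorem h_neg_mul (x : X) : h (-x) * h x = 1 := by
  rw [← h_add, neg_add_cancel, h_zero]

/-- Reduction modulo three. -/
def rd (u : ZMod 9) : ZMod 3 := ZMod.castHom (by norm_num : 3 ∣ 9) (ZMod 3) u

theorem rd_add (u v : ZMod 9) : rd (u + v) = rd u + rd v := map_add _ _ _
theorem rd_neg (u : ZMod 9) : rd (-u) = -rd u := map_neg _ _
theorem rd_zero : rd 0 = 0 := map_zero _

/-- The translation vector. -/
def w (c : ZMod 3) (u : ZMod 9) : X := (rd u, rd u * c)

theorem w_add (c : ZMod 3) (u v : ZMod 9) : w c (u + v) = w c u + w c v := by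
  unfold w
  rw [rd_add, Prod.mk_add_mk, add_mul]

theorem w_neg (c : ZMod 3) (u : ZMod 9) : w c (-u) = - w c u := by
  unfold w
  rw [rd_neg, Prod.neg_mk, neg_mul]

theorem w_zero (c : ZMod 3) : w c 0 = 0 := by
  unfold w
  rw [rd_zero, zero_mul]
  rfl

/-- Roots of unity of order nine. -/
noncomputable def e9 (u : ZMod 9) : ℂ := ZMod.stdAddChar u
/-- Roots of unity of order 91. -/
noncomputable def e91 (t : ZMod 91) : ℂ := ZMod.stdAddChar t

theorem e9_add (u v : ZMod 9) : e9 (u + v) = e9 u * e9 v := AddChar.map_add_eq_mul _ _ _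
theorem e91_add (u v : ZMod 91) : e91 (u + v) = e91 u * e91 v := AddChar.map_add_eq_mul _ _ _
theorem e9_zero : e9 0 = 1 := AddChar.map_zero_eq_one _
theorem e91_zero : e91 0 = 1 := AddChar.map_zero_eq_one _
theorem e9_inj {u : ZMod 9} (hu : e9 u = 1) : u = 0 :=
  ZMod.injective_stdAddChar (by rw [AddChar.map_zero_eq_one]; exact hu)
theorem e91_inj {u : ZMod 91} (hu : e91 u = 1) : u = 0 :=
  ZMod.injective_stdAddChar (by rw [AddChar.map_zero_eq_one]; exact hu)
theorem e9_star (u : ZMod 9) : star (e9 u) = e9 (-u) := by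
  exact (AddChar.map_neg_eq_conj _ _).symm
theorem e91_star (u : ZMod 91) : star (e91 u) = e91 (-u) := by
  exact (AddChar.map_neg_eq_conj _ _).symm

/-- The elements of the two groups. -/
noncomputable def G (c : ZMod 3) (t : ZMod 91) (u : ZMod 9) : Matrix X X ℂ :=
  fun x y => if x = y + w c u then e9 u * e91 (t * h x) else 0

theorem G_mul (c : ZMod 3) (t t' : ZMod 91) (u u' : ZMod 9) :
    G c t u * G c t' u' = G c (t + t' * h (-w c u)) (u + u') := by
  ext x z
  rw [Matrix.mul_apply, Finset.sum_eq_single (x - w c u)]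
  · unfold G
    rw [if_pos (by abel)]
    by_cases hz : x - w c u = z + w c u'
    · rw [if_pos hz, if_pos (by rw [w_add]; rw [sub_eq_iff_eq_add] at hz; rw [hz]; abel),
        e9_add, add_mul, e91_add, mul_assoc t', ← h_add]
      rw [show -w c u + x = x - w c u by abel]
      ring
    · rw [if_neg hz, if_neg, mul_zero]
      intro hx
      apply hz
      rw [hx, w_add]
      abel
  · intro y _ hy
    unfold G
    rw [if_neg, zero_mul]
    intro hx
    apply hy
    rw [hx]
    abel
  · intro hx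
    exact absurd (Finset.mem_univ _) hx

theorem G_zero (c : ZMod 3) : G c 0 0 = 1 := by
  ext x y
  unfold G
  rw [w_zero, add_zero, zero_mul, e9_zero, e91_zero, mul_one, Matrix.one_apply]

theorem G_star (c : ZMod 3) (t : ZMod 91) (u : ZMod 9) :
    (G c t u)ᴴ = G c (-(t * h (w c u))) (-u) := by
  ext x y
  rw [Matrix.conjTranspose_apply]
  unfold G
  by_cases hx : y = x + w c u
  · rw [if_pos hx, if_pos (by rw [w_neg, hx]; abel), star_mul', e9_star, e91_star, hx, h_add]
    congr 2
    ring
  · rw [if_neg hx, if_neg, star_zero]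
    intro h1
    apply hx
    rw [h1, w_neg]
    abel

theorem G_mul_star (c : ZMod 3) (t : ZMod 91) (u : ZMod 9) : G c t u * (G c t u)ᴴ = 1 := by
  rw [G_star, G_mul, add_neg_cancel]
  have : t + -(t * h (w c u)) * h (-w c u) = 0 := by
    have h1 := h_neg_mul (w c u)
    linear_combination (-t) * h1
  rw [this, G_zero]

/-! ## Elements other than the identity have no eigenvalue one -/

theorem chi_sum : ∀ (c : ZMod 3) (u : ZMod 9), rd u ≠ 0 →
    1 + h (-w c u) + h (-w c u) * h (-w c u) = 0 ∨ c = 0 := by decide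

theorem nine_smul : ∀ u : ZMod 9, 9 • u = 0 := by decide

theorem w_three : ∀ (c : ZMod 3) (u : ZMod 9), w c (u + u + u) = 0 := by decide

theorem unit_sub (c : ZMod 3) (hc : c ≠ 0) (t : ZMod 91) (u : ZMod 9) (hn : ¬ (t = 0 ∧ u = 0)) :
    ∃ D : Matrix X X ℂ, D * (G c t u - 1) = 1 := by
  by_cases hu : rd u = 0
  · have hw : w c u = 0 := by unfold w; rw [hu, zero_mul]; rfl
    have hne : ∀ x : X, e9 u * e91 (t * h x) - 1 ≠ 0 := by
      intro x h0
      apply hn
      have h1 : e9 u * e91 (t * h x) = 1 := sub_eq_zero.mp h0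
      have h9 : ∀ n : ℕ, e9 u ^ n = e9 (n • u) := fun n => (AddChar.map_nsmul_eq_pow _ _ _).symm
      have h91 : ∀ n : ℕ, e91 (t * h x) ^ n = e91 (n • (t * h x)) :=
        fun n => (AddChar.map_nsmul_eq_pow _ _ _).symm
      have h2 : e91 (9 • (t * h x)) = 1 := by
        have := congrArg (fun z => z ^ 9) h1
        simp only [mul_pow, one_pow, h9, h91] at this
        rw [nine_smul u, e9_zero, one_mul] at this
        exact this
      have h3 := e91_inj h2
      have h4 : t = 0 := by
        have h5 : t * h x = 0 := by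
          have key : ∀ y : ZMod 91, 9 • y = 0 → y = 0 := by decide
          exact key _ h3
        have h6 := congrArg (fun z => z * h (-x)) h5
        simp only [zero_mul] at h6
        rw [mul_assoc, mul_comm (h x), h_neg_mul, mul_one] at h6
        exact h6
      refine ⟨h4, ?_⟩
      rw [h4, zero_mul, e91_zero, mul_one] at h1
      exact e9_inj h1
    refine ⟨Matrix.diagonal fun x => (e9 u * e91 (t * h x) - 1)⁻¹, ?_⟩
    have h1 : G c t u - 1 = Matrix.diagonal fun x => e9 u * e91 (t * h x) - 1 := by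
      ext x y
      rw [Matrix.sub_apply, Matrix.one_apply, Matrix.diagonal_apply]
      unfold G
      rw [hw, add_zero]
      split_ifs <;> simp
    rw [h1, Matrix.diagonal_mul_diagonal]
    ext x y
    rw [Matrix.diagonal_apply, Matrix.one_apply]
    split_ifs with hxy
    · exact inv_mul_cancel₀ (hne x)
    · rfl
  · have h3 : G c t u * G c t u * G c t u = (e9 (u + u + u)) • (1 : Matrix X X ℂ) := by
      rw [G_mul, G_mul, w_add, neg_add, h_add]
      have h1 := (chi_sum c u hu).resolve_right hc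
      have h2 : t + t * h (-w c u) + t * (h (-w c u) * h (-w c u)) = 0 := by
        linear_combination t * h1
      rw [h2]
      have h4 : w c (u + u + u) = 0 := w_three c u
      ext x y
      unfold G
      rw [h4, add_zero, zero_mul, e91_zero, mul_one, Matrix.smul_apply, Matrix.one_apply,
        smul_eq_mul]
      split_ifs <;> simp
    have hne : e9 (u + u + u) - 1 ≠ 0 := by
      intro h0
      have h1 := e9_inj (sub_eq_zero.mp h0)
      revert h1 hu
      clear h0 h3 hn
      revert u
      decide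
    refine ⟨(e9 (u + u + u) - 1)⁻¹ • (G c t u * G c t u + G c t u + 1), ?_⟩
    have h4 : (G c t u * G c t u + G c t u + 1) * (G c t u - 1) =
        (e9 (u + u + u) - 1) • (1 : Matrix X X ℂ) := by
      rw [sub_smul, ← h3, one_smul]
      noncomm_ring
    rw [Matrix.smul_mul, h4, smul_smul, inv_mul_cancel₀ hne, one_smul]

theorem G_ne_one (c : ZMod 3) (hc : c ≠ 0) {t : ZMod 91} {u : ZMod 9} (h1 : G c t u = 1) :
    t = 0 ∧ u = 0 := by
  by_contra hn
  obtain ⟨D, hD⟩ := unit_sub c hc t u hn
  rw [h1, sub_self, mul_zero] at hD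
  have := congrFun (congrFun hD 0) 0
  simp at this

theorem G_inj (c : ZMod 3) (hc : c ≠ 0) {t t' : ZMod 91} {u u' : ZMod 9}
    (h1 : G c t u = G c t' u') : t = t' ∧ u = u' := by
  have h2 : G c t u * (G c t' u')ᴴ = 1 := by rw [h1, G_mul_star]
  rw [G_star, G_mul] at h2
  obtain ⟨h3, h4⟩ := G_ne_one c hc h2
  have h5 : u = u' := by
    rw [← sub_eq_add_neg, sub_eq_zero] at h4
    exact h4
  refine ⟨?_, h5⟩
  subst h5
  have h6 := h_neg_mul (w c u)
  have h7 : t - t' = 0 := by
    linear_combination h3 + t' * h6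
  exact sub_eq_zero.mp h7

/-! ## The elements correspond under conjugation -/

/-- The permutation matrix which exchanges the two translation directions. -/
noncomputable def Q : Matrix X X ℂ := fun x y => if x = (y.1, -y.2) then 1 else 0

theorem Q_mul (M : Matrix X X ℂ) (x y : X) : (Q * M) x y = M (x.1, -x.2) y := by
  rw [Matrix.mul_apply, Finset.sum_eq_single (x.1, -x.2)]
  · unfold Q
    rw [if_pos (by simp), one_mul]
  · intro z _ hz
    unfold Q
    rw [if_neg, zero_mul]
    rintro rfl
    apply hz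
    simp
  · intro hx
    exact absurd (Finset.mem_univ _) hx

theorem mul_Q (M : Matrix X X ℂ) (x y : X) : (M * Q) x y = M x (y.1, -y.2) := by
  rw [Matrix.mul_apply, Finset.sum_eq_single (y.1, -y.2)]
  · unfold Q
    rw [if_pos rfl, mul_one]
  · intro z _ hz
    unfold Q
    rw [if_neg hz, mul_zero]
  · intro hx
    exact absurd (Finset.mem_univ _) hx

theorem Q_sq : Q * Q = 1 := by
  ext x y
  rw [Q_mul, Matrix.one_apply]
  unfold Q
  by_cases hxy : x = y
  · subst hxy
    simp
  · rw [if_neg hxy, if_neg]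
    intro h1
    apply hxy
    rw [Prod.mk.injEq, neg_inj] at h1
    exact Prod.ext h1.1 h1.2

theorem Q_conj (u : ZMod 9) : Q * G 1 0 u * Q = G (-1) 0 u := by
  ext x y
  rw [mul_Q, Q_mul]
  unfold G
  simp only [zero_mul, e91_zero, mul_one]
  have key : ((x.1, -x.2) = (y.1, -y.2) + w 1 u) ↔ (x = y + w (-1) u) := by
    unfold w
    rw [Prod.ext_iff, Prod.ext_iff]
    simp only [Prod.fst_add, Prod.snd_add, mul_one, mul_neg]
    constructor
    · rintro ⟨h1, h2⟩
      refine ⟨h1, ?_⟩
      linear_combination (-1 : ZMod 3) * h2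
    · rintro ⟨h1, h2⟩
      refine ⟨h1, ?_⟩
      linear_combination (-1 : ZMod 3) * h2
  by_cases h1 : x = y + w (-1) u
  · rw [if_pos h1, if_pos (key.mpr h1)]
  · rw [if_neg h1, if_neg (fun h2 => h1 (key.mp h2))]

/-- `g` and `g'` are similar. -/
def Sim (M N : Matrix X X ℂ) : Prop := ∃ C C' : Matrix X X ℂ, C' * C = 1 ∧ N = C * M * C'

theorem Sim.trans {M N P : Matrix X X ℂ} (h1 : Sim M N) (h2 : Sim N P) : Sim M P := by
  obtain ⟨C, C', h3, h4⟩ := h1
  obtain ⟨D, D', h5, h6⟩ := h2
  refine ⟨D * C, C' * D', ?_, ?_⟩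
  · calc C' * D' * (D * C) = C' * (D' * D) * C := by noncomm_ring
      _ = 1 := by rw [h5, mul_one, h3]
  · rw [h6, h4]
    noncomm_ring

theorem Sim.symm {M N : Matrix X X ℂ} (h1 : Sim M N) : Sim N M := by
  obtain ⟨C, C', h3, h4⟩ := h1
  have h5 : C * C' = 1 := mul_eq_one_comm.mp h3
  refine ⟨C', C, h5, ?_⟩
  rw [h4]
  calc M = (C' * C) * M * (C' * C) := by rw [h3, one_mul, mul_one]
    _ = _ := by noncomm_ring

theorem chi_unit : ∀ (c : ZMod 3) (u : ZMod 9), rd u ≠ 0 → c ≠ 0 →
    ∃ s : ZMod 91, s * (1 - h (-w c u)) = 1 := by decide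

theorem sim_zero (c : ZMod 3) (hc : c ≠ 0) (t : ZMod 91) (u : ZMod 9) (hu : rd u ≠ 0) :
    Sim (G c 0 u) (G c t u) := by
  obtain ⟨s, hs⟩ := chi_unit c u hu hc
  refine ⟨G c (t * s) 0, G c (-(t * s)) 0, ?_, ?_⟩
  · rw [G_mul, w_zero, neg_zero, h_zero, mul_one, neg_add_cancel, add_zero, G_zero]
  · rw [G_mul, G_mul, w_zero, neg_zero, h_zero, zero_add, add_zero, zero_mul, add_zero]
    congr 1
    linear_combination (-t) * hs

theorem sim (t : ZMod 91) (u : ZMod 9) : Sim (G 1 t u) (G (-1) t u) := by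
  by_cases hu : rd u = 0
  · refine ⟨1, 1, by simp, ?_⟩
    rw [one_mul, mul_one]
    ext x y
    unfold G w
    rw [hu, zero_mul, zero_mul]
  · refine (sim_zero 1 (by decide) t u hu).symm.trans (Sim.trans ?_
      (sim_zero (-1) (by decide) t u hu))
    exact ⟨Q, Q, Q_sq, (Q_conj u).symm⟩

end Pool.Agent.Q138.Iso
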