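import Pool.Agent.Q138.Iso.Core

set_option autoImplicit false

namespace Pool.Agent.Q138.Iso

open Matrix

/-- The orthogonal matrix attached to `G c t u`. -/
noncomputable def O (c : ZMod 3) (t : ZMod 91) (u : ZMod 9) :
    Matrix.orthogonalGroup (Fin 18) ℝ :=
  ⟨R (G c t u), by
    rw [Matrix.mem_orthogonalGroup_iff]
    rw [← R_star, ← map_mul, G_mul_star, map_one]⟩

theorem O_val (c : ZMod 3) (t : ZMod 91) (u : ZMod 9) : (O c t u).1 = R (G c t u) := rfl

theorem O_mul (c : ZMod 3) (t t' : ZMod 91) (u u' : ZMod 9) :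
    O c t u * O c t' u' = O c (t + t' * h (-w c u)) (u + u') := by
  apply Subtype.ext
  change R (G c t u) * R (G c t' u') = R (G c (t + t' * h (-w c u)) (u + u'))
  rw [← map_mul, G_mul]

theorem O_zero (c : ZMod 3) : O c 0 0 = 1 := by
  apply Subtype.ext
  change R (G c 0 0) = 1
  rw [G_zero, map_one]

theorem R_injective : Function.Injective R := by
  intro A B h1
  ext x y
  have h2 : c2 (A x y) = c2 (B x y) := by
    ext a b
    have h3 := congrFun (congrFun h1 (en (x, a))) (en (y, b))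
    rw [R_apply, R_apply] at h3
    simpa using h3
  exact Algebra.leftMulMatrix_injective Complex.basisOneI h2

theorem O_inj (c : ZMod 3) (hc : c ≠ 0) {t t' : ZMod 91} {u u' : ZMod 9}
    (h1 : O c t u = O c t' u') : t = t' ∧ u = u' :=
  G_inj c hc (R_injective (congrArg Subtype.val h1))

theorem O_inv (c : ZMod 3) (t : ZMod 91) (u : ZMod 9) :
    (O c t u)⁻¹ = O c (-(t * h (w c u))) (-u) := by
  rw [inv_eq_iff_mul_eq_one, O_mul, add_neg_cancel]
  have : t + -(t * h (w c u)) * h (-w c u) = 0 := by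
    have h1 := h_neg_mul (w c u)
    linear_combination (-t) * h1
  rw [this, O_zero]

/-- The groups. -/
noncomputable def Gam (c : ZMod 3) : Subgroup (Matrix.orthogonalGroup (Fin 18) ℝ) where
  carrier := Set.range fun p : ZMod 91 × ZMod 9 => O c p.1 p.2
  mul_mem' := by
    rintro _ _ ⟨p, rfl⟩ ⟨q, rfl⟩
    exact ⟨(p.1 + q.1 * h (-w c p.2), p.2 + q.2), (O_mul _ _ _ _ _).symm⟩
  one_mem' := ⟨(0, 0), O_zero c⟩
  inv_mem' := by
    rintro _ ⟨p, rfl⟩
    exact ⟨(-(p.1 * h (w c p.2)), -p.2), (O_inv _ _ _).symm⟩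

theorem mem_Gam {c : ZMod 3} {g : Matrix.orthogonalGroup (Fin 18) ℝ} :
    g ∈ Gam c ↔ ∃ t u, O c t u = g := by
  constructor
  · rintro ⟨p, rfl⟩
    exact ⟨p.1, p.2, rfl⟩
  · rintro ⟨t, u, rfl⟩
    exact ⟨(t, u), rfl⟩

/-- The parametrisation of the groups. -/
noncomputable def par (c : ZMod 3) (hc : c ≠ 0) : ZMod 91 × ZMod 9 ≃ Gam c :=
  Equiv.ofBijective (fun p => ⟨O c p.1 p.2, ⟨p, rfl⟩⟩) (by
    constructor
    · intro p q hpq
      obtain ⟨h1, h2⟩ := O_inj c hc (congrArg Subtype.val hpq)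
      exact Prod.ext h1 h2
    · rintro ⟨_, ⟨p, rfl⟩⟩
      exact ⟨p, rfl⟩)

theorem par_val (c : ZMod 3) (hc : c ≠ 0) (p : ZMod 91 × ZMod 9) :
    (par c hc p).1 = O c p.1 p.2 := rfl

theorem finite_Gam (c : ZMod 3) : Finite (Gam c) := by
  have h1 : (Set.range fun p : ZMod 91 × ZMod 9 => O c p.1 p.2).Finite := Set.finite_range _
  exact h1.to_subtype

theorem free (c : ZMod 3) (hc : c ≠ 0) {g : Matrix.orthogonalGroup (Fin 18) ℝ} (hg : g ∈ Gam c)
    (hg1 : g ≠ 1) (v : Fin 18 → ℝ) (hv : g.1.mulVec v = v) : v = 0 := by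
  obtain ⟨t, u, rfl⟩ := mem_Gam.mp hg
  have hn : ¬ (t = 0 ∧ u = 0) := by
    rintro ⟨rfl, rfl⟩
    exact hg1 (O_zero c)
  obtain ⟨D, hD⟩ := unit_sub c hc t u hn
  have h1 : R D * (R (G c t u) - 1) = 1 := by
    rw [← map_one R, ← map_sub, ← map_mul, hD]
  have h2 : (R (G c t u) - 1).mulVec v = 0 := by
    rw [Matrix.sub_mulVec, Matrix.one_mulVec]
    rw [O_val] at hv
    rw [hv, sub_self]
  have h3 := congrArg (fun w => (R D).mulVec w) h2
  simp only [Matrix.mulVec_mulVec, h1, Matrix.one_mulVec, Matrix.mulVec_zero] at h3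
  exact h3

open MvPolynomial Pool.Agent.Helper477.HarmInv Pool.Agent.Helper477.Sph in
theorem inv_eq (k : ℕ) :
    Module.finrank ℝ ↥(homogeneousSubmodule (Fin 18) ℝ k ⊓ Inv (Gam 1)) =
      Module.finrank ℝ ↥(homogeneousSubmodule (Fin 18) ℝ k ⊓ Inv (Gam (-1))) := by
  classical
  have hc1 : (1 : ZMod 3) ≠ 0 := by decide
  have hc2 : (-1 : ZMod 3) ≠ 0 := by decide
  have := finite_Gam 1
  have := finite_Gam (-1)
  let _ := Fintype.ofFinite (Gam 1)
  let _ := Fintype.ofFinite (Gam (-1))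
  have m1 := molien k (Gam 1)
  have m2 := molien k (Gam (-1))
  have hcard : Fintype.card (Gam 1) = Fintype.card (Gam (-1)) :=
    Fintype.card_congr ((par 1 hc1).symm.trans (par (-1) hc2))
  have hsum : ∑ g : Gam 1, (Mk k g.1.1).trace = ∑ g : Gam (-1), (Mk k g.1.1).trace := by
    refine Fintype.sum_equiv ((par 1 hc1).symm.trans (par (-1) hc2)) _ _ fun g => ?_
    obtain ⟨p, rfl⟩ := (par 1 hc1).surjective g
    rw [Equiv.trans_apply, Equiv.symm_apply_apply, par_val, par_val, O_val, O_val]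
    obtain ⟨C, C', h1, h2⟩ := sim p.1 p.2
    rw [h2, map_mul, map_mul, trace_Mk_conj]
    rw [← map_mul, h1, map_one]
  rw [hsum, ← m2, hcard] at m1
  have h0 : (Fintype.card (Gam (-1)) : ℝ) ≠ 0 := by
    have : 0 < Fintype.card (Gam (-1)) := Fintype.card_pos
    exact_mod_cast this.ne'
  exact_mod_cast mul_left_cancel₀ h0 m1

/-! ## The groups are not isomorphic -/

theorem O_pow (c : ZMod 3) (t : ZMod 91) (n : ℕ) : O c t 0 ^ n = O c (n * t) 0 := by
  induction n with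
  | zero => rw [pow_zero, Nat.cast_zero, zero_mul, O_zero]
  | succ n ih =>
    rw [pow_succ, ih, O_mul, w_zero, neg_zero, h_zero, mul_one, add_zero]
    congr 1
    push_cast
    ring

theorem snd_pow (c : ZMod 3) (t : ZMod 91) (u : ZMod 9) (n : ℕ) :
    ∃ t', O c t u ^ n = O c t' (n * u) := by
  induction n with
  | zero => exact ⟨0, by rw [pow_zero, Nat.cast_zero, zero_mul, O_zero]⟩
  | succ n ih =>
    obtain ⟨t', ht⟩ := ih
    refine ⟨t' + t * h (-w c (n * u)), ?_⟩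
    rw [pow_succ, ht, O_mul]
    congr 1
    push_cast
    ring

theorem O_conj (c : ZMod 3) (t t' : ZMod 91) (u : ZMod 9) :
    O c t' u * O c t 0 * (O c t' u)⁻¹ = O c (t * h (-w c u)) 0 := by
  rw [O_inv, O_mul, O_mul, add_zero, add_neg_cancel]
  congr 1
  have h1 := h_neg_mul (w c u)
  linear_combination (-t') * h1

theorem key : ∀ (t : ZMod 91) (u : ZMod 9), 7 * t ≠ 0 → 13 * t ≠ 0 →
    t * h (-w (-1) u) ≠ 74 * t := by decide +kernel

theorem not_iso : IsEmpty (Gam 1 ≃* Gam (-1)) := by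
  refine ⟨fun φ => ?_⟩
  have hc1 : (1 : ZMod 3) ≠ 0 := by decide
  have hc2 : (-1 : ZMod 3) ≠ 0 := by decide
  set x : Gam 1 := ⟨O 1 1 0, ⟨(1, 0), rfl⟩⟩ with hx
  set y : Gam 1 := ⟨O 1 0 1, ⟨(0, 1), rfl⟩⟩ with hy
  have hxp : ∀ n : ℕ, x ^ n = ⟨O 1 (n * 1) 0, ⟨((n * 1 : ZMod 91), 0), rfl⟩⟩ := by
    intro n
    apply Subtype.ext
    rw [hx]
    exact O_pow 1 1 n
  have h1 : y * x * y⁻¹ = x ^ 74 := by
    rw [hxp]
    apply Subtype.ext
    change O 1 0 1 * O 1 1 0 * (O 1 0 1)⁻¹ = O 1 _ 0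
    rw [O_conj]
    congr 1
  have h2 : x ^ 91 = 1 := by
    rw [hxp]
    apply Subtype.ext
    change O 1 _ 0 = 1
    rw [← O_zero 1]
    congr 1
  have hne : ∀ n : ℕ, (n : ZMod 91) ≠ 0 → x ^ n ≠ 1 := by
    intro n hn h3
    rw [hxp] at h3
    have h4 := congrArg Subtype.val h3
    change O 1 _ 0 = 1 at h4
    rw [← O_zero 1] at h4
    have := (O_inj 1 hc1 h4).1
    rw [mul_one] at this
    exact hn this
  obtain ⟨t, u, htu⟩ := mem_Gam.mp (φ x).2
  obtain ⟨t', u', htu'⟩ := mem_Gam.mp (φ y).2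
  have hu : u = 0 := by
    have h3 : φ x ^ 91 = 1 := by rw [← map_pow, h2, map_one]
    have h4 := congrArg Subtype.val h3
    rw [Subgroup.coe_pow, ← htu] at h4
    obtain ⟨s, hs⟩ := snd_pow (-1) t u 91
    rw [hs] at h4
    change _ = (1 : Matrix.orthogonalGroup (Fin 18) ℝ) at h4
    rw [← O_zero (-1)] at h4
    have h5 := (O_inj (-1) hc2 h4).2
    have h6 : ((91 : ℕ) : ZMod 9) = 1 := by decide
    rw [h6, one_mul] at h5
    exact h5
  subst hu
  have hpow : ∀ n : ℕ, (φ x ^ n).1 = O (-1) (n * t) 0 := by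
    intro n
    rw [Subgroup.coe_pow, ← htu, O_pow]
  have ht : ∀ n : ℕ, (n : ZMod 91) ≠ 0 → (n : ZMod 91) * t ≠ 0 := by
    intro n hn h3
    apply hne n hn
    apply φ.injective
    rw [map_pow, map_one]
    apply Subtype.ext
    rw [hpow, h3]
    exact O_zero _
  have h7 : φ y * φ x * (φ y)⁻¹ = φ x ^ 74 := by
    rw [← map_pow, ← h1, map_mul, map_mul, map_inv]
  have h8 := congrArg Subtype.val h7
  rw [hpow] at h8
  change (φ y).1 * (φ x).1 * (φ y).1⁻¹ = _ at h8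
  rw [← htu, ← htu', O_conj] at h8
  have h9 := (O_inj (-1) hc2 h8).1
  refine key t u' ?_ ?_ ?_
  · have := ht 7 (by decide)
    exact_mod_cast this
  · have := ht 13 (by decide)
    exact_mod_cast this
  · rw [h9]
    norm_num

end Pool.Agent.Q138.Iso
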